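import Pool.Agent.MP_3ad207_lc.H43.LinSpec
import Pool.Agent.MP_3ad207_lc.H41.T1

/-! A large good family of ears contains a large clean family. -/

set_option autoImplicit false

namespace Pool.Agent.Ehf

namespace H60

variable {V : Type*} {G : SimpleGraph V} {S I : Set V} {h : Setup G S I} {u : V} {L R : Set V}

/-! ### rooted subtrees -/

theorem sub_self {x : V} (hu : u ∈ HH S I) (hx : x ∈ HH S I) : x ∈ h.Sub u x :=
  ⟨hx, h.right_mem_hseg hu hx⟩

theorem sub_trans {x y z : V} (hu : u ∈ HH S I) (h1 : y ∈ h.Sub u x) (h2 : z ∈ h.Sub u y) :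
    z ∈ h.Sub u x :=
  ⟨h2.1, h.hseg_subset_hseg hu h2.1 (h.left_mem_hseg hu h2.1) h2.2 h1.2⟩

theorem sub_antisymm {x y : V} (hu : u ∈ HH S I) (h1 : y ∈ h.Sub u x) (h2 : x ∈ h.Sub u y) :
    x = y := by
  have a := (h.hseg_split hu h1.1 h1.2).1
  have b := (h.hseg_split hu h2.1 h2.2).1
  exact (h.hlen_eq_zero_iff h2.1 h1.1).1 (by omega)

theorem sides_symm (hs : h.Sides u L R) : h.Sides u R L :=
  ⟨hs.white, hs.cR, hs.cL, hs.anti.symm, (Set.union_comm _ _).trans hs.cover⟩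

theorem root_mem (hs : h.Sides u L R) : u ∈ HH S I := Or.inr hs.white

theorem side_mem (hs : h.Sides u L R) {x : V} (hx : x ∈ L) : x ∈ HH S I \ {u} :=
  hs.cover ▸ Or.inl hx

theorem sub_side (hs : h.Sides u L R) {v x : V} (hv : v ∈ L) (hx : x ∈ h.Sub u v) : x ∈ L := by
  have hu := root_mem hs
  have vu : v ≠ u := (side_mem hs hv).2
  have xu : u ≠ x := by
    rintro rfl
    have := hx.2
    rw [h.hseg_self hu] at this
    exact vu this
  rcases (h.conn_hseg_diff_left hu hx.1 xu).subset_or hs.anti (by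
    rw [hs.cover]
    exact fun y hy => ⟨h.hseg_subset_H hu hx.1 hy.1, hy.2⟩) with c | c
  · exact c ⟨h.right_mem_hseg hu hx.1, xu.symm⟩
  · exact (hs.anti.notMem hv (c ⟨hx.2, vu⟩)).elim

theorem root_between (hs : h.Sides u L R) {a b : V} (ha : a ∈ L) (hb : b ∈ R) :
    u ∈ h.hseg b a := by
  have aH := (side_mem hs ha).1
  have bH := (side_mem (sides_symm hs) hb).1
  by_contra hn
  rcases (h.conn_hseg bH aH).subset_or hs.anti (by
    rw [hs.cover]
    exact fun y hy => ⟨h.hseg_subset_H bH aH hy, fun e => hn (e ▸ hy)⟩) with c | c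
  · exact hs.anti.notMem (c (h.left_mem_hseg bH aH)) hb
  · exact hs.anti.notMem ha (c (h.right_mem_hseg bH aH))

theorem reroot (hs : h.Sides u L R) {a b x : V} (ha : a ∈ L) (hb : b ∈ R)
    (hx : x ∈ h.Sub b a) : x ∈ h.Sub u a := by
  have hu := root_mem hs
  have aH := (side_mem hs ha).1
  have bH := (side_mem (sides_symm hs) hb).1
  have e1 := (h.hseg_split bH aH (root_between hs ha hb)).1
  have e2 := (h.hseg_split bH hx.1 hx.2).1
  have e3 := h.hlen_triangle bH hu hx.1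
  have e4 := h.hlen_triangle hu aH hx.1
  exact ⟨hx.1, (h.mem_hseg_iff_hlen hu aH hx.1).2 (by omega)⟩

/-- a white between a vertex and a proper descendant -/
theorem exists_white {v w : V} (hu : u ∈ HH S I) (hw : w ∈ h.Sub u v) (hne : w ≠ v) :
    ∃ o ∈ S \ I, o ∈ h.Sub u v ∧ w ∈ h.Sub u o := by
  have vH := h.hseg_subset_H hu hw.1 hw.2
  by_cases hv : v ∈ S \ I
  · exact ⟨v, hv, sub_self hu vH, hw⟩
  have cm := (h.hpath_one_mem vH hw.1 hne.symm).1
  have cH := h.hseg_subset_H vH hw.1 cm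
  have e1 := (h.hseg_split hu hw.1 hw.2).1
  have e2 := (h.hseg_split vH hw.1 cm).1
  have e3 := h.hlen_triangle hu cH hw.1
  have e4 := h.hlen_triangle hu vH cH
  exact ⟨_, h.white_of_adj_black ((black_iff_not_white vH).2 hv) cH
    (h.adj_hpath_one vH hw.1 hne.symm), ⟨cH, (h.mem_hseg_iff_hlen hu vH cH).2 (by omega)⟩,
    ⟨hw.1, (h.mem_hseg_iff_hlen hu cH hw.1).2 (by omega)⟩⟩

theorem subO_of {o v w x : V} (hu : u ∈ HH S I) (h1 : v ∈ h.Sub u o) (h2 : w ∈ h.Sub u v)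
    (hne : w ≠ v) (h3 : x ∈ h.Sub u w) : x ∈ h.SubO u o := by
  refine ⟨sub_trans hu h1 (sub_trans hu h2 h3), fun e => hne ?_⟩
  rw [Set.mem_singleton_iff] at e
  subst e
  exact sub_antisymm hu (sub_trans hu h3 h1) h2

/-! ### ears -/

theorem rev_set (F : Ear V) : F.rev.set = F.set := by
  ext x
  constructor
  · rintro ⟨k, -, -, rfl⟩
    exact ⟨F.n - k, Nat.zero_le _, Nat.sub_le _ _, rfl⟩
  · rintro ⟨k, -, hk, rfl⟩
    exact ⟨F.n - k, Nat.zero_le _, Nat.sub_le _ _, congrArg F.f (Nat.sub_sub_self hk)⟩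

theorem ear_rev {F : Ear V} (hF : h.IsEar F) : h.IsEar F.rev where
  ip := hF.ip.rev
  out i _ := hF.out _ (Nat.sub_le _ _)
  aH := hF.bH
  bH := hF.aH
  ea := hF.eb
  eb := by
    change G.Adj (F.f (F.n - F.n)) F.a
    rw [Nat.sub_self]
    exact hF.ea
  nbr i hi x hx e := by
    change i ≤ F.n at hi
    rcases hF.nbr (F.n - i) (Nat.sub_le _ _) x hx e with ⟨c, d⟩ | ⟨c, d⟩
    · exact Or.inr ⟨show i = F.n by omega, d⟩
    · exact Or.inl ⟨by omega, d⟩

theorem covers_rev {t z : Ear V} (ht : h.IsEar t) (c : h.Covers t.rev z.rev) : h.Covers t z := by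
  obtain ⟨c1, c2, c3, c4, c5⟩ := c
  have e : h.hseg t.rev.a t.rev.b = h.hseg t.a t.b := h.hseg_symm ht.aH ht.bH
  have e' : z.rev.f 0 = z.f 0 := congrArg z.f (show z.n - 0 = 0 from c2)
  rw [e] at c3 c4 c5
  rw [e'] at c5
  exact ⟨c1, c2, c4, c3, c5⟩

theorem good_comp {ι κ : Type*} {s : Finset ι} {F : ι → Ear V} (hg : h.Good s F) {t : Finset κ}
    {φ : κ → ι} (hm : ∀ i ∈ t, φ i ∈ s) (hi : ∀ i ∈ t, ∀ j ∈ t, φ i = φ j → i = j) :
    h.Good t fun i => F (φ i) :=
  ⟨⟨fun i a => hg.1.1 _ (hm i a), fun i a j b c =>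
    hg.1.2 _ (hm i a) _ (hm j b) fun e => c (hi i a j b e)⟩,
    fun i a j b c => hg.2 _ (hm i a) _ (hm j b) fun e => c (hi i a j b e)⟩

theorem good_rev {ι : Type*} {s : Finset ι} {F : ι → Ear V} (hg : h.Good s F) :
    h.Good s fun i => (F i).rev := by
  refine ⟨⟨fun i a => ear_rev (hg.1.1 i a), fun i a j b c => ?_⟩, fun i a j b c =>
    ⟨(hg.2 i a j b c).2.1, (hg.2 i a j b c).1,
      fun d => (hg.2 i a j b c).2.2 (covers_rev (hg.1.1 i a) d)⟩⟩
  rw [rev_set, rev_set]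
  exact hg.1.2 i a j b c

theorem joins (hs : h.Sides u L R) {F : Ear V} (hF : h.IsEar F) (ha : F.a ∈ L) (hb : F.b ∈ R)
    {P Q : Set V} (hP : ∀ x ∈ h.Sub u F.a, Touch G F.set {x} → x ∈ P)
    (hQ : ∀ x ∈ h.Sub u F.b, Touch G F.set {x} → x ∈ Q) : h.Joins F.set P Q := by
  have hu := root_mem hs
  have m0 : F.f 0 ∈ F.set := apply_mem_seg le_rfl (Nat.zero_le _)
  have mn : F.f F.n ∈ F.set := apply_mem_seg (Nat.zero_le _) le_rfl
  refine ⟨hF.ip.conn_seg (Nat.zero_le _) le_rfl, ?_,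
    Touch.of_adj m0 (hP _ (sub_self hu hF.aH) (Touch.of_adj m0 rfl hF.ea)) hF.ea,
    Touch.of_adj mn (hQ _ (sub_self hu hF.bH) (Touch.of_adj mn rfl hF.eb)) hF.eb, ?_⟩
  · rintro v ⟨k, -, hk, rfl⟩
    exact hF.out k hk
  · rintro v ⟨k, k0, hk, rfl⟩ y hy
    refine ⟨fun e => hF.out k hk (e ▸ hy.1), fun e => hy.2 ?_⟩
    have t : Touch G F.set {y} := Touch.of_adj (apply_mem_seg k0 hk) rfl e
    rcases hF.nbr k hk y hy.1 e with ⟨-, d⟩ | ⟨-, d⟩
    · exact Or.inl (hP y (reroot hs ha hb d) t)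
    · exact Or.inr (hQ y (reroot (sides_symm hs) hb ha d) t)

theorem off_sub {X : Set V} {a o v x : V} (hs : h.Sides u L R) (ha : a ∈ L) (ho : o ∈ h.Sub u v)
    (hX : Anti G X (h.Sub u v)) (hx : x ∈ h.Sub u a) (t : Touch G X {x}) : x ∈ L \ h.Sub u o :=
  ⟨sub_side hs ha hx, fun c => not_touch.2 hX
    (t.mono le_rfl (Set.singleton_subset_iff.2 (sub_trans (root_mem hs) ho c)))⟩

/-! ### reindexing the data of one side -/

section side
variable {n N : ℕ} {X : ℕ → Set V} {a al : ℕ → V} {θ : ℕ → ℕ}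

theorem nodes_mono (hn : h.Nodes u L N a al) (hθ : ∀ i, i < n → θ i < N)
    (hm : ∀ i j, i < j → j < n → θ i < θ j) :
    h.Nodes u L n (fun i => a (θ i)) fun i => al (θ i) :=
  ⟨fun i hi => hn.mem _ (hθ i hi), fun i hi => hn.top _ (hθ i hi),
    fun i j hij hj => hn.desc _ _ (hm i j hij hj) (hθ j hj)⟩

theorem inj_of_mono (hm : ∀ i j, i < j → j < n → θ i < θ j) :
    ∀ i j, i < n → j < n → θ i = θ j → i = j := by
  intro i j hi hj e
  rcases lt_trichotomy i j with c | c | c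
  · exact absurd e (hm i j c hj).ne
  · exact c
  · exact absurd e (hm j i c hi).ne'

theorem inj_of_anti (hm : ∀ i j, i < j → j < n → θ j < θ i) :
    ∀ i j, i < n → j < n → θ i = θ j → i = j := by
  intro i j hi hj e
  rcases lt_trichotomy i j with c | c | c
  · exact absurd e (hm i j c hj).ne'
  · exact c
  · exact absurd e (hm j i c hi).ne

theorem star_inj (hk : h.Star N a al) (hθ : ∀ i, i < n → θ i < N)
    (hi : ∀ i j, i < n → j < n → θ i = θ j → i = j) :
    h.Star n (fun i => a (θ i)) fun i => al (θ i) := fun i j a b =>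
  ⟨(hk _ _ (hθ i a) (hθ j b)).1, (hk _ _ (hθ i a) (hθ j b)).2.1,
    fun c => (hk _ _ (hθ i a) (hθ j b)).2.2 fun e => c (hi i j a b e)⟩

theorem kind_mono (hk : h.Spread u N X al ∨ h.Star N a al) (hθ : ∀ i, i < n → θ i < N)
    (hm : ∀ i j, i < j → j < n → θ i < θ j) :
    h.Spread u n (fun i => X (θ i)) (fun i => al (θ i)) ∨
      h.Star n (fun i => a (θ i)) fun i => al (θ i) :=
  hk.imp (fun c i j hij hj => c _ _ (hm i j hij hj) (hθ j hj))
    fun c => star_inj c hθ (inj_of_mono hm)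

theorem nodes_star (hs : h.Sides u L R) (hn : h.Nodes u L N a al) (hk : h.Star N a al)
    (hθ : ∀ i, i < n → θ i < N) : h.Nodes u L n (fun i => a (θ i)) fun i => al (θ i) := by
  refine ⟨fun i hi => hn.mem _ (hθ i hi), fun i hi => hn.top _ (hθ i hi), fun i j hij hj => ?_⟩
  have hi := hθ i (hij.trans hj)
  rw [(hk _ _ hi (hθ j hj)).1]
  exact sub_self (root_mem hs) (side_mem hs (hn.mem _ (hθ j hj))).1

end side

theorem exists_enum (t : Finset ℕ) : ∃ θ : ℕ → ℕ, (∀ i, i < t.card → θ i ∈ t) ∧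
    ∀ i j, i < j → j < t.card → θ i < θ j := by
  refine ⟨fun i => if c : i < t.card then t.orderEmbOfFin rfl ⟨i, c⟩ else 0, fun i hi => ?_,
    fun i j hij hj => ?_⟩
  · simp only [dif_pos hi]
    exact t.orderEmbOfFin_mem rfl _
  · simp only [dif_pos hj, dif_pos (hij.trans hj)]
    exact (t.orderEmbOfFin rfl).strictMono hij

/-- a monotone subsequence -/
theorem exists_monotone (m : ℕ) (ψ : ℕ → ℕ)
    (hψ : ∀ i j, i < (m + m).choose m → j < (m + m).choose m → ψ i = ψ j → i = j) :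
    ∃ θ : ℕ → ℕ, (∀ i, i < m → θ i < (m + m).choose m) ∧ (∀ i j, i < j → j < m → θ i < θ j) ∧
      ((∀ i j, i < j → j < m → ψ (θ i) < ψ (θ j)) ∨ ∀ i j, i < j → j < m → ψ (θ j) < ψ (θ i)) := by
  have key := ramsey (fun i j => (i < j ∧ ψ i < ψ j) ∨ (j < i ∧ ψ j < ψ i)) (fun _ _ e => e.symm)
    m m (Finset.range ((m + m).choose m)) (Finset.card_range _).ge
  rcases key with ⟨t, ht, hc, hp⟩ | ⟨t, ht, hc, hp⟩
  · obtain ⟨θ, a, b⟩ := exists_enum t
    rw [hc] at a b
    refine ⟨θ, fun i hi => Finset.mem_range.1 (ht (a i hi)), b, Or.inl fun i j hij hj => ?_⟩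
    have c := b i j hij hj
    rcases hp _ (a i (hij.trans hj)) _ (a j hj) c.ne with e | e
    · exact e.2
    · exact (lt_asymm c e.1).elim
  · obtain ⟨θ, a, b⟩ := exists_enum t
    rw [hc] at a b
    refine ⟨θ, fun i hi => Finset.mem_range.1 (ht (a i hi)), b, Or.inr fun i j hij hj => ?_⟩
    have c := b i j hij hj
    have hi := a i (hij.trans hj)
    have d := hp _ hi _ (a j hj) c.ne
    have e : ψ (θ i) ≠ ψ (θ j) := fun e =>
      c.ne (hψ _ _ (Finset.mem_range.1 (ht hi)) (Finset.mem_range.1 (ht (a j hj))) e)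
    by_contra f
    exact d (Or.inl ⟨c, lt_of_le_of_ne (not_lt.1 f) e⟩)

/-- two spread sides cannot have opposite orders -/
theorem no_opposite (h2 : XStmt) {V : Type} [Finite V] {G : SimpleGraph V} {S I : Set V}
    {h : Setup G S I} {u : V} {L R : Set V} (hs : h.Sides u L R) {F : ℕ → Ear V}
    {al be : ℕ → V} (hg : h.Apart (Finset.range 7) F)
    (hab : ∀ i, i < 7 → (F i).a ∈ L ∧ (F i).b ∈ R)
    (nl : h.Nodes u L 7 (fun i => (F i).a) al) (sl : h.Spread u 7 (fun i => (F i).set) al)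
    (nr : h.Nodes u R 7 (fun i => (F (6 - i)).b) be)
    (sr : h.Spread u 7 (fun i => (F (6 - i)).set) be) : False := by
  have hu := root_mem hs
  have hs' := sides_symm hs
  obtain ⟨ga, wa, a1, a2⟩ := exists_white hu (nl.desc 1 2 (by omega) (by omega))
    (sl 1 2 (by omega) (by omega)).1
  obtain ⟨gb, wb, b1, b2⟩ := exists_white hu (nr.desc 1 2 (by omega) (by omega))
    (sr 1 2 (by omega) (by omega)).1
  have ear : ∀ i, i < 7 → h.IsEar (F i) := fun i hi => hg.1 i (Finset.mem_range.2 hi)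
  have lowA : ∀ i, 2 < i → i < 7 → ∀ x ∈ h.Sub u (F i).a, x ∈ h.SubO u ga := fun i c hi x hx =>
    subO_of hu a2 (nl.desc 2 i c hi) (sl 2 i c hi).1 (sub_trans hu (nl.top i hi) hx)
  have lowB : ∀ i, 2 < i → i < 7 → ∀ x ∈ h.Sub u (F (6 - i)).b, x ∈ h.SubO u gb :=
    fun i c hi x hx =>
      subO_of hu b2 (nr.desc 2 i c hi) (sr 2 i c hi).1 (sub_trans hu (nr.top i hi) hx)
  refine h2 V G S I h u ga gb L R (F 6).set (F 0).set (F 3).set hs
    (sub_side hs (nl.mem 1 (by omega)) a1) wa (sub_side hs' (nr.mem 1 (by omega)) b1) wb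
    (joins hs (ear 6 (by omega)) (hab 6 (by omega)).1 (hab 6 (by omega)).2
      (fun x hx _ => lowA 6 (by omega) (by omega) x hx)
      fun x hx t => off_sub hs' (hab 6 (by omega)).2 b1 (sr 0 1 (by omega) (by omega)).2 hx t)
    (joins hs (ear 0 (by omega)) (hab 0 (by omega)).1 (hab 0 (by omega)).2
      (fun x hx t => off_sub hs (hab 0 (by omega)).1 a1 (sl 0 1 (by omega) (by omega)).2 hx t)
      fun x hx _ => lowB 6 (by omega) (by omega) x hx)
    (joins hs (ear 3 (by omega)) (hab 3 (by omega)).1 (hab 3 (by omega)).2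
      (fun x hx _ => lowA 3 (by omega) (by omega) x hx)
      fun x hx _ => lowB 3 (by omega) (by omega) x hx)
    (hg.2 6 (by simp) 0 (by simp) (by omega)) (hg.2 6 (by simp) 3 (by simp) (by omega))
    (hg.2 0 (by simp) 3 (by simp) (by omega))

end H60

open H60 in
/-- (CLEAN) -/
theorem cleanStmt (h1 : SideStmt) (h2 : XStmt) : CleanStmt := by
  classical
  intro n
  obtain ⟨m, hm⟩ : ∃ m, m = n + 7 := ⟨_, rfl⟩
  obtain ⟨N₁, H₁⟩ := h1 ((m + m).choose m)
  obtain ⟨N₀, H₀⟩ := h1 N₁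
  refine ⟨2 * N₀, fun V _ G S I h u L R ι s F hs hg hab hN => ?_⟩
  obtain ⟨s', hss, hc, same⟩ : ∃ s' ⊆ s, N₀ ≤ s'.card ∧
      ((∀ i ∈ s', (F i).n = 0) ∨ ∀ i ∈ s', 0 < (F i).n) := by
    have := Finset.card_filter_add_card_filter_not (s := s) fun i => (F i).n = 0
    by_cases c : N₀ ≤ (s.filter fun i => (F i).n = 0).card
    · exact ⟨_, Finset.filter_subset _ _, c, Or.inl fun i hi => (Finset.mem_filter.1 hi).2⟩
    · exact ⟨s.filter fun i => ¬ (F i).n = 0, Finset.filter_subset _ _, by omega,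
        Or.inr fun i hi => Nat.pos_of_ne_zero (Finset.mem_filter.1 hi).2⟩
  have hg' : h.Good s' F := good_comp (φ := id) hg hss fun _ _ _ _ e => e
  obtain ⟨φ, al, φs, φi, nl, kl⟩ := H₀ V G S I h u L R ι s' F hs hg' (fun i hi => hab i (hss hi)) hc
  have hg₁ : h.Good (Finset.range N₁) fun i => F (φ i) :=
    good_comp hg' (fun i hi => φs i (Finset.mem_range.1 hi))
      fun i a j b => φi i j (Finset.mem_range.1 a) (Finset.mem_range.1 b)
  obtain ⟨ψ, be, ψs, ψi, nr, kr⟩ := H₁ V G S I h u R L ℕ (Finset.range N₁)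
    (fun i => (F (φ i)).rev) (sides_symm hs) (good_rev hg₁)
    (fun i hi => (hab _ (hss (φs i (Finset.mem_range.1 hi)))).symm) (Finset.card_range _).ge
  simp only [Finset.mem_range] at ψs
  simp only [rev_set] at kr
  change h.Nodes u R _ (fun i => (F (φ (ψ i))).b) be at nr
  change _ ∨ h.Star _ (fun i => (F (φ (ψ i))).b) be at kr
  have fin : ∀ θ : ℕ → ℕ, (∀ i, i < n → θ i < (m + m).choose m) →
      (∀ i j, i < n → j < n → θ i = θ j → i = j) →
      h.Nodes u L n (fun i => (F (φ (ψ (θ i)))).a) (fun i => al (ψ (θ i))) →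
      h.Nodes u R n (fun i => (F (φ (ψ (θ i)))).b) (fun i => be (θ i)) →
      (h.Spread u n (fun i => (F (φ (ψ (θ i)))).set) (fun i => al (ψ (θ i))) ∨
        h.Star n (fun i => (F (φ (ψ (θ i)))).a) fun i => al (ψ (θ i))) →
      (h.Spread u n (fun i => (F (φ (ψ (θ i)))).set) (fun i => be (θ i)) ∨
        h.Star n (fun i => (F (φ (ψ (θ i)))).b) fun i => be (θ i)) →
      ∃ (φ : ℕ → ι) (al be : ℕ → V), (∀ i, i < n → φ i ∈ s) ∧
        h.Clean u L R n (fun i => F (φ i)) al be := by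
    intro θ a b c d e f
    have g : ∀ i, i < n → φ (ψ (θ i)) ∈ s' := fun i hi => φs _ (ψs _ (a i hi))
    refine ⟨fun i => φ (ψ (θ i)), _, _, fun i hi => hss (g i hi),
      good_comp hg₁ (φ := fun i => ψ (θ i))
        (fun i hi => Finset.mem_range.2 (ψs _ (a i (Finset.mem_range.1 hi)))) (fun i x j y z => ?_),
      same.imp (fun k i hi => k _ (g i hi)) fun k i hi => k _ (g i hi), c, d, e, f⟩
    rw [Finset.mem_range] at x y
    exact b i j x y (ψi _ _ (a i x) (a j y) z)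
  obtain ⟨θ, θs, θm, θk⟩ := exists_monotone m ψ ψi
  have θs' : ∀ i, i < n → θ i < (m + m).choose m := fun i hi => θs i (by omega)
  have θm' : ∀ i j, i < j → j < n → θ i < θ j := fun i j a b => θm i j a (by omega)
  have ψθ : ∀ i, i < n → ψ (θ i) < N₁ := fun i hi => ψs _ (θs' i hi)
  rcases θk with θk | θk
  · have θk' : ∀ i j, i < j → j < n → ψ (θ i) < ψ (θ j) := fun i j a b => θk i j a (by omega)
    exact fin θ θs' (inj_of_mono θm') (nodes_mono nl ψθ θk') (nodes_mono nr θs' θm')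
      (kind_mono kl ψθ θk') (kind_mono kr θs' θm')
  have θk' : ∀ i j, i < j → j < n → ψ (θ j) < ψ (θ i) := fun i j a b => θk i j a (by omega)
  rcases kl with kl | kl
  swap
  · exact fin θ θs' (inj_of_mono θm') (nodes_star hs nl kl ψθ) (nodes_mono nr θs' θm')
      (Or.inr (star_inj kl ψθ (inj_of_anti θk'))) (kind_mono kr θs' θm')
  rcases kr with kr | kr
  swap
  · have a : ∀ i, i < n → θ (n - 1 - i) < (m + m).choose m := fun i hi => θs _ (by omega)
    have b : ∀ i j, i < j → j < n → θ (n - 1 - j) < θ (n - 1 - i) :=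
      fun i j x y => θm _ _ (by omega) (by omega)
    have c : ∀ i j, i < j → j < n → ψ (θ (n - 1 - i)) < ψ (θ (n - 1 - j)) :=
      fun i j x y => θk _ _ (by omega) (by omega)
    have d : ∀ i, i < n → ψ (θ (n - 1 - i)) < N₁ := fun i hi => ψs _ (a i hi)
    exact fin (fun i => θ (n - 1 - i)) a (inj_of_anti b) (nodes_mono nl d c)
      (nodes_star (sides_symm hs) nr kr a) (Or.inl fun i j x y => kl _ _ (c i j x y) (d j y))
      (Or.inr (star_inj kr a (inj_of_anti b)))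
  exfalso
  have a : ∀ i, i < 7 → θ (6 - i) < (m + m).choose m := fun i hi => θs _ (by omega)
  have c : ∀ i j, i < j → j < 7 → ψ (θ (6 - i)) < ψ (θ (6 - j)) :=
    fun i j x y => θk _ _ (by omega) (by omega)
  have d : ∀ i, i < 7 → ψ (θ (6 - i)) < N₁ := fun i hi => ψs _ (a i hi)
  have a' : ∀ i, i < 7 → θ (6 - (6 - i)) < (m + m).choose m := fun i hi => θs _ (by omega)
  have b' : ∀ i j, i < j → j < 7 → θ (6 - (6 - i)) < θ (6 - (6 - j)) :=
    fun i j x y => θm _ _ (by omega) (by omega)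
  exact no_opposite h2 hs (F := fun i => F (φ (ψ (θ (6 - i))))) (al := fun i => al (ψ (θ (6 - i))))
    (be := fun i => be (θ (6 - (6 - i))))
    (good_comp hg₁ (φ := fun i => ψ (θ (6 - i)))
      (fun i hi => Finset.mem_range.2 (d i (Finset.mem_range.1 hi)))
      fun i x j y => inj_of_mono c i j (Finset.mem_range.1 x) (Finset.mem_range.1 y)).1
    (fun i hi => hab _ (hss (φs _ (d i hi)))) (nodes_mono nl d c)
    (fun i j x y => kl _ _ (c i j x y) (d j y)) (nodes_mono nr a' b')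
    fun i j x y => kr _ _ (b' i j x y) (a' j y)

end Pool.Agent.Ehf
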